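import Pool.Agent.K4H66.VN.Defs

/-!
# Restriction to a subset, orbits
-/

set_option autoImplicit false

namespace Pool.Agent.K4H66.VN

open Pool.Agent.K4H1.VN Pool.Agent.Y276.Rig
open scoped ComplexConjugate InnerProductSpace
open Filter Topology

variable {Γ Λ : Type} [Group Γ] [Group Λ]

open Classical in
theorem memlp_res (C : Set Γ) (f : L2 Γ) :
    Memℓp (fun x => if x ∈ C then (f : Γ → ℂ) x else 0) 2 := by
  rw [memℓp_gen_iff (by norm_num)]
  have h1 := (memℓp_gen_iff (p := 2) (by norm_num)).1 f.2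
  refine Summable.of_nonneg_of_le (fun x => by positivity) (fun x => ?_) h1
  by_cases hx : x ∈ C
  · simp only [if_pos hx]; exact le_rfl
  · simp only [if_neg hx, norm_zero]
    rw [Real.zero_rpow (by norm_num)]
    positivity

open Classical in
/-- restriction to a subset -/
noncomputable def res (C : Set Γ) (f : L2 Γ) : L2 Γ :=
  ⟨fun x => if x ∈ C then (f : Γ → ℂ) x else 0, memlp_res C f⟩

theorem res_in {C : Set Γ} {f : L2 Γ} {x : Γ} (hx : x ∈ C) : res C f x = f x := if_pos hx
theorem res_out {C : Set Γ} {f : L2 Γ} {x : Γ} (hx : x ∉ C) : res C f x = 0 := if_neg hx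

/-- operators of `L(N)` commute with the restriction to left invariant sets -/
theorem res_comm {N : Subgroup Γ} {C : Set Γ} (hC : ∀ n ∈ N, ∀ x, x ∈ C → n * x ∈ C)
    {T : L2 Γ →L[ℂ] L2 Γ} (hT : InVN T) (hTN : SuppIn (T (delta 1)) N) (f : L2 Γ) :
    T (res C f) = res C (T f) := by
  apply L2ext
  intro b
  have h1 := apply_hasSum T (res C f) b
  by_cases hb : b ∈ C
  · rw [res_in hb]
    refine h1.unique ?_
    convert apply_hasSum T f b using 1
    funext c
    by_cases hc : c ∈ C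
    · rw [res_in hc]
    · rw [res_out hc, zero_mul, hT.delta_apply', hTN, mul_zero]
      intro hn
      refine hc ?_
      have h2 := hC _ (N.inv_mem hn) b hb
      have h3 : (b * c⁻¹)⁻¹ * b = c := by group
      rwa [h3] at h2
  · rw [res_out hb]
    refine h1.unique ?_
    convert hasSum_zero using 1
    funext c
    by_cases hc : c ∈ C
    · rw [hT.delta_apply', hTN, mul_zero]
      intro hn
      refine hb ?_
      have h2 := hC _ hn c hc
      rwa [inv_mul_cancel_right] at h2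
    · rw [res_out hc, zero_mul]

theorem res_comm' {N : Subgroup Γ} {C : Set Γ} (hC : ∀ n ∈ N, ∀ x, x ∈ C → x * n ∈ C)
    {T : L2 Γ →L[ℂ] L2 Γ} (hT : InVN' T) (hTN : SuppIn (T (delta 1)) N) (f : L2 Γ) :
    T (res C f) = res C (T f) := by
  apply L2ext
  intro b
  have h1 := apply_hasSum T (res C f) b
  by_cases hb : b ∈ C
  · rw [res_in hb]
    refine h1.unique ?_
    convert apply_hasSum T f b using 1
    funext c
    by_cases hc : c ∈ C
    · rw [res_in hc]
    · rw [res_out hc, zero_mul, hT.delta_apply', hTN, mul_zero]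
      intro hn
      refine hc ?_
      have h2 := hC _ (N.inv_mem hn) b hb
      have h3 : b * (c⁻¹ * b)⁻¹ = c := by group
      rwa [h3] at h2
  · rw [res_out hb]
    refine h1.unique ?_
    convert hasSum_zero using 1
    funext c
    by_cases hc : c ∈ C
    · rw [hT.delta_apply', hTN, mul_zero]
      intro hn
      refine hb ?_
      have h2 := hC _ hn c hc
      rwa [mul_inv_cancel_left] at h2
    · rw [res_out hc, zero_mul]

/-- `res` and `rho` -/
theorem res_rho (C : Set Γ) (g : Γ) (f : L2 Γ) :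
    res C (rho g f) = rho g (res {y | y * g⁻¹ ∈ C} f) := by
  apply L2ext
  intro x
  rw [rho_apply]
  by_cases hx : x ∈ C
  · rw [res_in hx, rho_apply, res_in]
    show x * g * g⁻¹ ∈ C
    rwa [mul_inv_cancel_right]
  · rw [res_out hx, res_out]
    show ¬ x * g * g⁻¹ ∈ C
    rwa [mul_inv_cancel_right]

theorem orbit_zero {S : Set Γ} {g : Γ} (hS : {x : Γ | ∃ n ∈ S, x = n * g * n⁻¹}.Infinite)
    {F : Γ → ℂ} (hF : ∀ n ∈ S, F (n * g * n⁻¹) = F g)
    (h0 : Tendsto F cofinite (𝓝 0)) : F g = 0 := by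
  by_contra hne
  have h1 : ∀ᶠ y in cofinite, ‖F y‖ < ‖F g‖ := by
    have h2 := h0.norm
    rw [norm_zero] at h2
    exact h2.eventually_lt_const (norm_pos_iff.2 hne)
  rw [Filter.eventually_cofinite] at h1
  refine hS (h1.subset ?_)
  rintro y ⟨k, hk, rfl⟩
  show ¬ ‖F (k * g * k⁻¹)‖ < ‖F g‖
  rw [hF k hk]
  exact lt_irrefl _

theorem orthonormal_delta' {ι : Type} {e : ι → Γ} (he : Function.Injective e) :
    Orthonormal ℂ fun i => (delta (e i) : L2 Γ) := by
  classical
  refine ⟨fun i => norm_delta _, fun i j hij => ?_⟩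
  show ⟪(delta (e i) : L2 Γ), delta (e j)⟫_ℂ = 0
  rw [inner_delta, delta_apply, if_neg]
  exact fun h => hij (he h)

theorem c0_vec (f : L2 Γ) : Tendsto (fun x => f x) cofinite (𝓝 0) := by
  have h1 := c0_of_orthonormal (orthonormal_delta' (Γ := Γ) (e := id) Function.injective_id) f
  have h2 := (Complex.continuous_conj.tendsto 0).comp h1
  rw [map_zero] at h2
  refine h2.congr fun x => ?_
  show conj ⟪f, delta x⟫_ℂ = f x
  rw [inner_conj_symm, inner_delta]

/-- finite index and icc -/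
theorem relIcc_of_finiteIndex (hicc : IsIcc Γ) {N : Subgroup Γ} (hN : N.FiniteIndex) : RelIcc N := by
  classical
  intro g hg hfin
  refine hicc g hg ?_
  haveI := hN
  haveI : Finite (Γ ⧸ N) := Subgroup.finite_quotient_of_finiteIndex
  have h1 : {y : Γ | ∃ h : Γ, y = h * g * h⁻¹} ⊆
      ⋃ q : Γ ⧸ N, (fun x => Quotient.out q * x * (Quotient.out q)⁻¹) '' 
        {x : Γ | ∃ n ∈ N, x = n * g * n⁻¹} := by
    rintro y ⟨h, rfl⟩
    rw [Set.mem_iUnion]
    refine ⟨(h : Γ ⧸ N), ?_⟩
    have h2 : (Quotient.out (h : Γ ⧸ N))⁻¹ * h ∈ N := QuotientGroup.eq.1 (Quotient.out_eq' _)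
    refine ⟨_, ⟨_, h2, rfl⟩, ?_⟩
    show Quotient.out (h : Γ ⧸ N) * ((Quotient.out (h : Γ ⧸ N))⁻¹ * h * g *
      ((Quotient.out (h : Γ ⧸ N))⁻¹ * h)⁻¹) * (Quotient.out (h : Γ ⧸ N))⁻¹ = h * g * h⁻¹
    group
  exact (Set.finite_iUnion fun q => hfin.image _).subset h1

end Pool.Agent.K4H66.VN
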