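import Pool.Agent.K4H66.VN.A

/-!
# The case `θ(L(N)) = L(K)`: infinite orbits in `Λ`
-/

set_option autoImplicit false

namespace Pool.Agent.K4H66.VN

open Pool.Agent.K4H1.VN Pool.Agent.Y276.Rig
open scoped ComplexConjugate InnerProductSpace
open Filter Topology

variable {Γ Λ : Type} [Group Γ] [Group Λ] {U : L2 Γ ≃ₗᵢ[ℂ] L2 Λ}

/-- `U ρ_x U⁻¹` as an isometry of `ℓ²(Λ)` -/
noncomputable def rr (U : L2 Γ ≃ₗᵢ[ℂ] L2 Λ) (x : Γ) : L2 Λ ≃ₗᵢ[ℂ] L2 Λ :=
  (U.symm.trans (rho x)).trans U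

theorem rr_apply (x : Γ) (f : L2 Λ) : rr U x f = U (rho x (U.symm f)) := rfl

/-- `U ρ_x U⁻¹` commutes with the left translations -/
theorem rr_inVN' (hU : IsStdIso U) (x : Γ) : InVN' (tl (rr U x) : L2 Λ →L[ℂ] L2 Λ) := by
  intro s f
  show U (rho x (U.symm (lam s f))) = lam s (U (rho x (U.symm f)))
  have h1 := inVN_th hU.symm s x (U.symm f)
  rw [th_apply, th_apply, LinearIsometryEquiv.symm_symm, U.apply_symm_apply] at h1
  -- h1 : U.symm (lam s (U (rho x (U.symm f)))) = rho x (U.symm (lam s f))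
  have h2 := congrArg U h1
  rw [U.apply_symm_apply] at h2
  exact h2.symm

theorem rr_delta (hU : IsStdIso U) (x : Γ) : rr U x (delta 1) = U (delta x⁻¹) := by
  rw [rr_apply, hU.symm_one, rho_delta, one_mul]

/-- **orbits of `K`** -/
theorem orbit_K (hU : IsStdIso U) {N : Subgroup Γ} (hN : RelIcc N) {K : Subgroup Λ}
    (hc : Compat U N K) {z : Λ} (hz : z ≠ 1) :
    {x : Λ | ∃ k ∈ K, x = k * z * k⁻¹}.Infinite := by
  classical
  intro hfin
  set O : Finset Λ := hfin.toFinset with hO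
  have hOm : ∀ y, y ∈ O ↔ ∃ k ∈ K, y = k * z * k⁻¹ := fun y => by
    rw [hO, Set.Finite.mem_toFinset]; rfl
  have hOK : ∀ y ∈ O, ∀ k ∈ K, k * y * k⁻¹ ∈ O := by
    intro y hy k hk
    obtain ⟨l, hl, rfl⟩ := (hOm _).1 hy
    refine (hOm _).2 ⟨k * l, K.mul_mem hk hl, ?_⟩
    group
  set ζ : L2 Λ := ∑ y ∈ O, delta y with hζ
  have hsum : ∀ (T : L2 Λ →L[ℂ] L2 Λ) (b : Λ), T ζ b = ∑ y ∈ O, T (delta y) b := by
    intro T b
    rw [← inner_delta, hζ, map_sum, inner_sum]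
    exact Finset.sum_congr rfl fun y _ => inner_delta _ _
  -- the identity
  have key : ∀ n ∈ N, th U (tl (lam n)) ζ = (tl (rr U n⁻¹) : L2 Λ →L[ℂ] L2 Λ) ζ := by
    intro n hn
    apply L2ext
    intro b
    rw [hsum, hsum]
    have hV : ∀ c, U (delta n) c ≠ 0 → c ∈ K := fun c hc' => hc.1 n hn c hc'
    have e1 : ∀ y, th U (tl (lam n)) (delta y) b = U (delta n) (b * y⁻¹) := fun y => by
      rw [(inVN_th hU n).delta_apply', th_lam_delta hU]
    have e2 : ∀ y, (tl (rr U n⁻¹) : L2 Λ →L[ℂ] L2 Λ) (delta y) b = U (delta n) (y⁻¹ * b) :=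
      fun y => by
        rw [(rr_inVN' hU n⁻¹).delta_apply']
        show rr U n⁻¹ (delta 1) (y⁻¹ * b) = _
        rw [rr_delta hU, inv_inv]
    simp only [e1, e2]
    refine Finset.sum_bij_ne_zero (fun y _ _ => b * y * b⁻¹) ?_ ?_ ?_ ?_
    · intro y hy hne
      have h3 := hOK y hy _ (hV _ hne)
      have h4 : (b * y⁻¹) * y * (b * y⁻¹)⁻¹ = b * y * b⁻¹ := by group
      rwa [h4] at h3
    · intro a _ _ b' _ _ h
      simpa using h
    · intro y hy hne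
      have h3 := hOK y hy _ (K.inv_mem (hV _ hne))
      have h4 : (y⁻¹ * b)⁻¹ * y * (y⁻¹ * b)⁻¹⁻¹ = b⁻¹ * y * b := by group
      rw [h4] at h3
      refine ⟨b⁻¹ * y * b, h3, ?_, by group⟩
      have h5 : b * (b⁻¹ * y * b)⁻¹ = y⁻¹ * b := by group
      rwa [h5]
    · intro y hy hne
      have h5 : b * y⁻¹ = (b * y * b⁻¹)⁻¹ * b := by group
      rw [h5]
  -- `h = U⁻¹ ζ` is invariant under conjugation by `N`
  set h : L2 Γ := U.symm ζ with hh
  have hinv : ∀ n ∈ N, ∀ w, h (n * w * n⁻¹) = h w := by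
    intro n hn w
    have h1 : U (lam n h) = U (rho n⁻¹ h) := key n hn
    have h2 := U.injective h1
    have h3 := congrArg (fun f : L2 Γ => f (n * w)) h2
    simp only [lam_apply, rho_apply] at h3
    rw [inv_mul_cancel_left] at h3
    exact h3.symm
  have h1 : ∀ g, g ≠ 1 → h g = 0 := fun g hg =>
    orbit_zero (S := (N : Set Γ)) (hN g hg) (fun n hn => hinv n hn g) (c0_vec h)
  have h2 : h = (h 1) • (delta 1 : L2 Γ) := by
    apply L2ext
    intro x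
    rw [lp.coeFn_smul, Pi.smul_apply, delta_apply]
    by_cases hx : x = 1
    · rw [if_pos hx, hx, smul_eq_mul, mul_one]
    · rw [if_neg hx, smul_zero, h1 x hx]
  have h3 := congrArg U h2
  rw [hh, U.apply_symm_apply, map_smul, hU.1] at h3
  have h4 := congrArg (fun f : L2 Λ => f z) h3
  simp only [lp.coeFn_smul, Pi.smul_apply, delta_apply, if_neg hz, smul_zero] at h4
  have h5 := hsum (ContinuousLinearMap.id ℂ _) z
  simp only [ContinuousLinearMap.id_apply, delta_apply] at h5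
  rw [h4, Finset.sum_ite_eq, if_pos] at h5
  · exact zero_ne_one h5
  · exact (hOm z).2 ⟨1, K.one_mem, by group⟩

/-! ### finitely many right cosets in a double coset -/

/-- the right coset `K t k⁻¹` -/
def rc (K : Subgroup Λ) (t k : Λ) : Set Λ := {y | y * k * t⁻¹ ∈ K}

theorem rc_eq_of_mem {K : Subgroup Λ} {t k k' y : Λ} (h : y ∈ rc K t k) (h' : y ∈ rc K t k') :
    rc K t k = rc K t k' := by
  have h0 : y * k * t⁻¹ ∈ K := h
  have h0' : y * k' * t⁻¹ ∈ K := h'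
  ext x
  show x * k * t⁻¹ ∈ K ↔ x * k' * t⁻¹ ∈ K
  have e1 : x * k * t⁻¹ = x * k' * t⁻¹ * ((y * k' * t⁻¹)⁻¹ * (y * k * t⁻¹)) := by group
  rw [e1, K.mul_mem_cancel_right (K.mul_mem (K.inv_mem h0') h0)]

theorem rc_finite (hU : IsStdIso U) {N : Subgroup Γ} (hNn : N.Normal) {K : Subgroup Λ}
    (hc : MapsSub U N K) (t : Λ) : {C : Set Λ | ∃ k ∈ K, C = rc K t k}.Finite := by
  classical
  -- `g` with `(U δ_g)(t) ≠ 0`
  obtain ⟨g, hg⟩ := exists_supp (U := U.symm) t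
  set V : L2 Λ := U (delta g) with hV
  have hVt : V t ≠ 0 := by
    rw [hV, ← inner_delta, ← LinearIsometryEquiv.inner_map_map U.symm, U.symm_apply_apply,
      ← inner_conj_symm, inner_delta]
    exact (map_ne_zero _).2 hg
  -- the operators `z_k`
  have hz : ∀ k ∈ K, ∃ T : L2 Λ ≃ₗᵢ[ℂ] L2 Λ, InVN (tl T : L2 Λ →L[ℂ] L2 Λ) ∧
      SuppIn (T (delta 1)) K ∧ T V = rho k⁻¹ V := by
    intro k hk
    let a : L2 Γ ≃ₗᵢ[ℂ] L2 Γ := (U.trans (lam k)).trans U.symm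
    let b : L2 Γ ≃ₗᵢ[ℂ] L2 Γ := ((lam g⁻¹).trans a).trans (lam g)
    have ha : ∀ f, a f = U.symm (lam k (U f)) := fun f => rfl
    have haV : ∀ x f, a (rho x f) = rho x (a f) := fun x f => inVN_th hU.symm k x f
    have hb : ∀ f, b f = lam g (a (lam g⁻¹ f)) := fun f => rfl
    have hbV : ∀ x f, b (rho x f) = rho x (b f) := by
      intro x f
      rw [hb, hb, ← rho_lam, haV, ← rho_lam]
    have ha1 : a (delta 1) = U.symm (delta k) := by
      rw [ha, hU.1, lam_delta, mul_one]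
    have hbs : SuppIn ((tl b : L2 Γ →L[ℂ] L2 Γ) (delta 1)) N := by
      intro x hx
      show b (delta 1) x = 0
      have e1 : (lam g⁻¹ (delta 1) : L2 Γ) = rho g (delta 1) := by
        rw [lam_delta, rho_delta, mul_one, one_mul]
      rw [hb, e1, haV, ha1, lam_apply, rho_apply]
      by_contra hne
      refine hx ?_
      have h1 := (hc.compat hU).2 k hk _ hne
      have h2 := hNn.conj_mem _ h1 g
      have h3 : g * (g⁻¹ * x * g) * g⁻¹ = x := by group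
      rwa [h3] at h2
    refine ⟨(U.symm.trans b).trans U, ?_, ?_, ?_⟩
    · exact (hU.2 (tl b)).1 hbV
    · exact (hc (tl b) hbV).1 hbs
    · show U (b (U.symm V)) = rho k⁻¹ V
      rw [hV, U.symm_apply_apply, hb, lam_delta, inv_mul_cancel, ha1]
      have h1 := th_lam_apply (U := U) g (U.symm (delta k))
      rw [U.apply_symm_apply] at h1
      rw [← h1]
      have h2 : (delta k : L2 Λ) = rho k⁻¹ (delta 1) := by rw [rho_delta, inv_inv, one_mul]
      rw [h2, inVN_th hU g, th_lam_delta hU]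
  -- all the masses are the same
  have hm : ∀ k ∈ K, ‖res (rc K t k) V‖ = ‖res (rc K t 1) V‖ := by
    intro k hk
    obtain ⟨T, hT, hTs, hTV⟩ := hz k hk
    have h1 : (tl T : L2 Λ →L[ℂ] L2 Λ) (res (rc K t 1) V) = res (rc K t 1) (tl T V) :=
      res_comm (N := K) (fun n hn x hx => by
        show n * x * 1 * t⁻¹ ∈ K
        have h2 : x * 1 * t⁻¹ ∈ K := hx
        have h3 : n * x * 1 * t⁻¹ = n * (x * 1 * t⁻¹) := by group
        rw [h3]
        exact K.mul_mem hn h2) hT hTs V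
    have h2 : T (res (rc K t 1) V) = res (rc K t 1) (T V) := h1
    rw [hTV, res_rho] at h2
    have h3 : {y : Λ | y * k⁻¹⁻¹ ∈ rc K t 1} = rc K t k := by
      ext y
      show y * k⁻¹⁻¹ * 1 * t⁻¹ ∈ K ↔ y * k * t⁻¹ ∈ K
      rw [inv_inv, mul_one]
    rw [h3] at h2
    have h4 := congrArg norm h2
    rw [LinearIsometryEquiv.norm_map, LinearIsometryEquiv.norm_map] at h4
    exact h4.symm
  set m : ℝ := ‖res (rc K t 1) V‖ with hmdef
  have hm0 : 0 < m := by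
    rw [hmdef, norm_pos_iff]
    intro h0
    have h1 : res (rc K t 1) V t = V t := res_in (by
      show t * 1 * t⁻¹ ∈ K
      rw [mul_one, mul_inv_cancel]
      exact K.one_mem)
    rw [h0] at h1
    exact hVt h1.symm
  -- an orthonormal family
  by_contra hinf
  have hinf' : Infinite {C : Set Λ | ∃ k ∈ K, C = rc K t k} := Set.infinite_coe_iff.2 hinf
  have hon : Orthonormal ℂ fun C : {C : Set Λ | ∃ k ∈ K, C = rc K t k} =>
      ((m⁻¹ : ℝ) : ℂ) • res (C : Set Λ) V := by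
    refine ⟨fun C => ?_, fun C C' hCC => ?_⟩
    · obtain ⟨C, k, hk, rfl⟩ := C
      show ‖((m⁻¹ : ℝ) : ℂ) • res (rc K t k) V‖ = 1
      rw [norm_smul, hm k hk, Complex.norm_real, Real.norm_of_nonneg (by positivity),
        inv_mul_cancel₀ hm0.ne']
    · obtain ⟨C, k, hk, rfl⟩ := C
      obtain ⟨C', k', hk', rfl⟩ := C'
      show ⟪((m⁻¹ : ℝ) : ℂ) • res (rc K t k) V, ((m⁻¹ : ℝ) : ℂ) • res (rc K t k') V⟫_ℂ = 0
      rw [inner_smul_left, inner_smul_right, lp.inner_eq_tsum]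
      have h1 : ∀ x, ⟪res (rc K t k) V x, res (rc K t k') V x⟫_ℂ = 0 := by
        intro x
        by_cases hx : x ∈ rc K t k
        · by_cases hx' : x ∈ rc K t k'
          · exact absurd (Subtype.ext (rc_eq_of_mem hx hx')) hCC
          · rw [res_out hx', inner_zero_right]
        · rw [res_out hx, inner_zero_left]
      simp only [h1, tsum_zero, mul_zero]
  have h1 := hon.inner_products_summable (x := V)
  have h2 : ∀ C : {C : Set Λ | ∃ k ∈ K, C = rc K t k},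
      ‖⟪((m⁻¹ : ℝ) : ℂ) • res (C : Set Λ) V, V⟫_ℂ‖ ^ 2 = m ^ 2 := by
    intro C
    obtain ⟨C, k, hk, rfl⟩ := C
    have h3 : ⟪res (rc K t k) V, V⟫_ℂ = ⟪res (rc K t k) V, res (rc K t k) V⟫_ℂ := by
      rw [lp.inner_eq_tsum, lp.inner_eq_tsum]
      refine tsum_congr fun x => ?_
      by_cases hx : x ∈ rc K t k
      · rw [res_in hx]
      · rw [res_out hx, inner_zero_left, inner_zero_left]
    show ‖⟪((m⁻¹ : ℝ) : ℂ) • res (rc K t k) V, V⟫_ℂ‖ ^ 2 = m ^ 2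
    rw [inner_smul_left, h3, inner_self_eq_norm_sq_to_K, hm k hk, norm_mul, Complex.norm_conj,
      Complex.norm_real, Real.norm_of_nonneg (by positivity)]
    have h4 : ‖((m : ℂ)) ^ 2‖ = m ^ 2 := by
      rw [norm_pow, Complex.norm_real, Real.norm_of_nonneg hm0.le]
    have h5 : ‖((m : ℝ) : ℂ) ^ 2‖ = m ^ 2 := h4
    rw [show (RCLike.ofReal m : ℂ) = ((m : ℝ) : ℂ) from rfl, h5]
    field_simp
  simp only [h2] at h1
  have h3 := h1.tendsto_cofinite_zero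
  have h4 := tendsto_nhds_unique h3 tendsto_const_nhds
  exact (pow_pos hm0 2).ne h4

/-- **orbits of `K ∩ s K s⁻¹`** -/
theorem orbit_Ks (hU : IsStdIso U) {N : Subgroup Γ} (hNn : N.Normal) (hN : RelIcc N)
    {K : Subgroup Λ} (hc : MapsSub U N K) (s : Λ) {z : Λ} (hz : z ≠ 1) :
    {x : Λ | ∃ k ∈ {k : Λ | k ∈ K ∧ s⁻¹ * k * s ∈ K}, x = k * z * k⁻¹}.Infinite := by
  classical
  intro hfin
  refine orbit_K hU hN (hc.compat hU) hz ?_
  have hf := rc_finite hU hNn hc s⁻¹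
  haveI : Finite {C : Set Λ | ∃ k ∈ K, C = rc K s⁻¹ k} := hf.to_subtype
  choose r hr using fun C : {C : Set Λ | ∃ k ∈ K, C = rc K s⁻¹ k} => C.2
  refine (Set.finite_iUnion fun C : {C : Set Λ | ∃ k ∈ K, C = rc K s⁻¹ k} =>
    hfin.image fun x => r C * x * (r C)⁻¹).subset ?_
  rintro y ⟨k, hk, rfl⟩
  rw [Set.mem_iUnion]
  let C : {C : Set Λ | ∃ k ∈ K, C = rc K s⁻¹ k} := ⟨rc K s⁻¹ k, k, hk, rfl⟩
  have h1 : rc K s⁻¹ k = rc K s⁻¹ (r C) := (hr C).2
  have h2 : s⁻¹ * k⁻¹ ∈ rc K s⁻¹ (r C) := by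
    rw [← h1]
    show s⁻¹ * k⁻¹ * k * s⁻¹⁻¹ ∈ K
    have : s⁻¹ * k⁻¹ * k * s⁻¹⁻¹ = 1 := by group
    rw [this]
    exact K.one_mem
  have h3 : s⁻¹ * k⁻¹ * r C * s⁻¹⁻¹ ∈ K := h2
  refine ⟨C, (r C)⁻¹ * k * z * ((r C)⁻¹ * k)⁻¹, ⟨(r C)⁻¹ * k,
    ⟨K.mul_mem (K.inv_mem (hr C).1) hk, ?_⟩, rfl⟩, ?_⟩
  · have h4 := K.inv_mem h3
    have h5 : (s⁻¹ * k⁻¹ * r C * s⁻¹⁻¹)⁻¹ = s⁻¹ * ((r C)⁻¹ * k) * s := by group
    rwa [h5] at h4
  · show r C * ((r C)⁻¹ * k * z * ((r C)⁻¹ * k)⁻¹) * (r C)⁻¹ = k * z * k⁻¹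
    group

end Pool.Agent.K4H66.VN
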