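import Pool.Agent.K4H66.VN.B

/-!
# The support of `U⁻¹ δ_s` is in one coset
-/

set_option autoImplicit false

namespace Pool.Agent.K4H66.VN

open Pool.Agent.K4H1.VN Pool.Agent.Y276.Rig
open scoped ComplexConjugate InnerProductSpace
open Filter Topology

variable {Γ Λ : Type} [Group Γ] [Group Λ] {U : L2 Γ ≃ₗᵢ[ℂ] L2 Λ}

/-- `U⁻¹ δ_s` is supported on one coset of `N` -/
def OneCoset (U : L2 Γ ≃ₗᵢ[ℂ] L2 Λ) (N : Subgroup Γ) : Prop :=
  ∀ (s : Λ) (x y : Γ), U.symm (delta s) x ≠ 0 → U.symm (delta s) y ≠ 0 → x⁻¹ * y ∈ N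

/-- the coset of `y` -/
def cs (N : Subgroup Γ) (y : Γ) : Set Γ := {x | y⁻¹ * x ∈ N}

theorem cs_right {N : Subgroup Γ} (y : Γ) : ∀ n ∈ N, ∀ x, x ∈ cs N y → x * n ∈ cs N y := by
  intro n hn x hx
  show y⁻¹ * (x * n) ∈ N
  rw [← mul_assoc]
  exact N.mul_mem hx hn

theorem cs_left {N : Subgroup Γ} (hN : N.Normal) (y : Γ) :
    ∀ n ∈ N, ∀ x, x ∈ cs N y → n * x ∈ cs N y := by
  intro n hn x hx
  show y⁻¹ * (n * x) ∈ N
  have h1 : y⁻¹ * (n * x) = (y⁻¹ * n * y⁻¹⁻¹) * (y⁻¹ * x) := by group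
  rw [h1]
  exact N.mul_mem (hN.conj_mem _ hn _) hx

theorem oneCoset_of_sub (hU : IsStdIso U) {N : Subgroup Γ} (hNn : N.Normal) (hN : RelIcc N)
    {K : Subgroup Λ} (hc : MapsSub U N K) : OneCoset U N := by
  classical
  intro s y x hy hx
  -- restrict to the coset of `y`
  set f : L2 Γ := U.symm (delta s) with hf
  set ζ : L2 Λ := U (res (cs N y) f) with hζ
  have hcomp := hc.compat hU
  have inv : ∀ k ∈ K, s⁻¹ * k * s ∈ K → ∀ t, ζ (k⁻¹ * t * (s⁻¹ * k * s)) = ζ t := by
    intro k hk hk' t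
    set k' := s⁻¹ * k * s with hkk
    have ha : SuppIn (th U.symm (tl (lam k)) (delta 1)) N := by
      intro z hz
      rw [th_lam_delta hU.symm]
      by_contra hne
      exact hz (hcomp.2 k hk z hne)
    have hb : SuppIn ((tl (rr U.symm k') : L2 Γ →L[ℂ] L2 Γ) (delta 1)) N := by
      intro z hz
      show rr U.symm k' (delta 1) z = 0
      rw [rr_delta hU.symm]
      by_contra hne
      exact hz (hcomp.2 _ (K.inv_mem hk') z hne)
    have h1 : (tl (rr U.symm k') : L2 Γ →L[ℂ] L2 Γ) (res (cs N y) f) =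
        res (cs N y) (tl (rr U.symm k') f) :=
      res_comm' (cs_right y) (rr_inVN' hU.symm k') hb f
    have h2 : th U.symm (tl (lam k)) (res (cs N y) (tl (rr U.symm k') f)) =
        res (cs N y) (th U.symm (tl (lam k)) (tl (rr U.symm k') f)) :=
      res_comm (cs_left hNn y) (inVN_th hU.symm k) ha _
    have h3 : th U.symm (tl (lam k)) ((tl (rr U.symm k') : L2 Γ →L[ℂ] L2 Γ) f) = f := by
      show U.symm (lam k (U.symm.symm (U.symm (rho k' (U.symm.symm f))))) = f
      rw [LinearIsometryEquiv.symm_symm, U.apply_symm_apply, hf, U.apply_symm_apply, rho_delta,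
        lam_delta]
      congr 2
      rw [hkk]
      group
    rw [h3, ← h1] at h2
    have h4 : U.symm (lam k (U.symm.symm (U.symm (rho k' (U.symm.symm (res (cs N y) f)))))) =
        res (cs N y) f := h2
    rw [LinearIsometryEquiv.symm_symm, U.apply_symm_apply] at h4
    have h5 := congrArg U h4
    rw [U.apply_symm_apply] at h5
    have h6 := congrArg (fun v : L2 Λ => v t) h5
    simp only [lam_apply, rho_apply] at h6
    exact h6
  have h0 : ∀ z, z ≠ 1 → ζ (z * s) = 0 := by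
    intro z hz
    have h1 : Tendsto (fun z => ζ (z * s)) cofinite (𝓝 0) :=
      (c0_vec ζ).comp (mul_left_injective s).tendsto_cofinite
    refine orbit_zero (S := {k : Λ | k ∈ K ∧ s⁻¹ * k * s ∈ K}) (orbit_Ks hU hNn hN hc s hz)
      (F := fun z => ζ (z * s)) ?_ h1
    rintro k ⟨hk, hk'⟩
    have h2 := inv k hk hk' (k * z * k⁻¹ * s)
    have h3 : k⁻¹ * (k * z * k⁻¹ * s) * (s⁻¹ * k * s) = z * s := by group
    rw [h3] at h2
    exact h2.symm
  have hζs : ζ = ζ s • (delta s : L2 Λ) := by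
    apply L2ext
    intro t
    rw [lp.coeFn_smul, Pi.smul_apply, delta_apply]
    by_cases ht : t = s
    · rw [if_pos ht, ht, smul_eq_mul, mul_one]
    · rw [if_neg ht, smul_zero]
      have h1 := h0 (t * s⁻¹) (fun h => ht (mul_inv_eq_one.1 h))
      rwa [inv_mul_cancel_right] at h1
  have h1 : res (cs N y) f = ζ s • f := by
    have h2 := congrArg U.symm hζs
    rwa [hζ, U.symm_apply_apply, map_smul] at h2
  have h2 : ζ s ≠ 0 := by
    intro h0'
    rw [h0', zero_smul] at h1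
    have h3 := congrArg (fun v : L2 Γ => v y) h1
    simp only at h3
    rw [res_in (by show y⁻¹ * y ∈ N; rw [inv_mul_cancel]; exact N.one_mem)] at h3
    exact hy h3
  by_contra hxN
  have h3 := congrArg (fun v : L2 Γ => v x) h1
  simp only at h3
  rw [res_out (by exact hxN), lp.coeFn_smul, Pi.smul_apply, smul_eq_mul] at h3
  exact mul_ne_zero h2 hx h3.symm

/-! ### the case of a subalgebra normalised by `Λ` -/

/-- two nonzero vectors with all `⟨ρ_x u, v⟩ = 0` and orthogonal `ρ_x u` do not exist -/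
theorem no_two {u v : L2 Γ} (hu : u ≠ 0) (hv : v ≠ 0)
    (huu : ∀ x, x ≠ 1 → ⟪u, rho x u⟫_ℂ = 0) (huv : ∀ x, ⟪v, rho x u⟫_ℂ = 0) : False := by
  classical
  -- some `y` with `v y ≠ 0`
  obtain ⟨y, hy⟩ : ∃ y, v y ≠ 0 := by
    by_contra hcon
    push Not at hcon
    exact hv (L2ext hcon)
  have hun : 0 < ‖u‖ := norm_pos_iff.2 hu
  have hvn : 0 < ‖v‖ := norm_pos_iff.2 hv
  let w : Option Γ → L2 Γ := fun o => match o with
    | none => ((‖v‖⁻¹ : ℝ) : ℂ) • v
    | some x => ((‖u‖⁻¹ : ℝ) : ℂ) • rho x u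
  have hrho : ∀ x x', x ≠ x' → ⟪rho x u, rho x' u⟫_ℂ = 0 := by
    intro x x' hxx
    have h1 : rho x' u = rho x (rho (x⁻¹ * x') u) := by
      rw [← rho_mul, mul_inv_cancel_left]
    rw [h1, LinearIsometryEquiv.inner_map_map]
    exact huu _ fun h => hxx (inv_mul_eq_one.1 h)
  have hw : Orthonormal ℂ w := by
    refine ⟨fun o => ?_, fun o o' hoo => ?_⟩
    · cases o with
      | none =>
        show ‖((‖v‖⁻¹ : ℝ) : ℂ) • v‖ = 1
        rw [norm_smul, Complex.norm_real, Real.norm_of_nonneg (by positivity),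
          inv_mul_cancel₀ hvn.ne']
      | some x =>
        show ‖((‖u‖⁻¹ : ℝ) : ℂ) • rho x u‖ = 1
        rw [norm_smul, LinearIsometryEquiv.norm_map, Complex.norm_real,
          Real.norm_of_nonneg (by positivity), inv_mul_cancel₀ hun.ne']
    · cases o with
      | none =>
        cases o' with
        | none => exact absurd rfl hoo
        | some x =>
          show ⟪((‖v‖⁻¹ : ℝ) : ℂ) • v, ((‖u‖⁻¹ : ℝ) : ℂ) • rho x u⟫_ℂ = 0
          rw [inner_smul_left, inner_smul_right, huv, mul_zero, mul_zero]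
      | some x =>
        cases o' with
        | none =>
          show ⟪((‖u‖⁻¹ : ℝ) : ℂ) • rho x u, ((‖v‖⁻¹ : ℝ) : ℂ) • v⟫_ℂ = 0
          rw [inner_smul_left, inner_smul_right, ← inner_conj_symm, huv, map_zero, mul_zero,
            mul_zero]
        | some x' =>
          show ⟪((‖u‖⁻¹ : ℝ) : ℂ) • rho x u, ((‖u‖⁻¹ : ℝ) : ℂ) • rho x' u⟫_ℂ = 0
          rw [inner_smul_left, inner_smul_right, hrho x x' (fun h => hoo (by rw [h])), mul_zero,
            mul_zero]
  -- Bessel for `δ_y`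
  have hB : ∀ s : Finset Γ, ‖⟪w none, delta y⟫_ℂ‖ ^ 2 + ∑ x ∈ s, ‖⟪w (some x), delta y⟫_ℂ‖ ^ 2 ≤ 1 := by
    intro s
    have h1 := hw.sum_inner_products_le (x := (delta y : L2 Γ)) (s := Finset.insertNone s)
    rw [norm_delta, one_pow, Finset.sum_insertNone] at h1
    exact h1
  have hsum : HasSum (fun x => ‖⟪w (some x), delta y⟫_ℂ‖ ^ 2) 1 := by
    have h1 : ∀ x, ‖⟪w (some x), delta y⟫_ℂ‖ ^ 2 = (‖u‖⁻¹) ^ 2 * ‖u (y * x)‖ ^ 2 := by
      intro x
      show ‖⟪((‖u‖⁻¹ : ℝ) : ℂ) • rho x u, delta y⟫_ℂ‖ ^ 2 = _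
      rw [inner_smul_left, ← inner_conj_symm, inner_delta, rho_apply, norm_mul, Complex.norm_conj,
        Complex.norm_conj, Complex.norm_real, Real.norm_of_nonneg (by positivity), mul_pow]
    simp only [h1]
    have h2 : HasSum (fun x => ‖u x‖ ^ 2) (‖u‖ ^ 2) := by
      have h3 := lp.hasSum_norm (p := 2) (by norm_num) u
      have h4 : (2 : ENNReal).toReal = (2 : ℕ) := by norm_num
      simp only [h4, Real.rpow_natCast] at h3
      exact h3
    have h3 := ((Equiv.mulLeft y).hasSum_iff.2 h2).mul_left ((‖u‖⁻¹) ^ 2)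
    have h4 : (‖u‖⁻¹) ^ 2 * ‖u‖ ^ 2 = 1 := by
      rw [← mul_pow, inv_mul_cancel₀ hun.ne', one_pow]
    rw [h4] at h3
    exact h3
  have h1 : ‖⟪w none, delta y⟫_ℂ‖ ^ 2 + 1 ≤ 1 :=
    le_of_tendsto (tendsto_const_nhds.add hsum) (Eventually.of_forall hB)
  have h2 : 0 < ‖⟪w none, delta y⟫_ℂ‖ ^ 2 := by
    refine pow_pos (norm_pos_iff.2 ?_) 2
    show ⟪((‖v‖⁻¹ : ℝ) : ℂ) • v, delta y⟫_ℂ ≠ 0
    rw [inner_smul_left, ← inner_conj_symm, inner_delta]
    refine mul_ne_zero ((map_ne_zero _).2 ?_) ((map_ne_zero _).2 hy)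
    exact_mod_cast (inv_pos.2 hvn).ne'
  linarith

theorem oneCoset_of_normalised (hU : IsStdIso U) {N : Subgroup Γ} (hNn : N.Normal)
    (hN : RelIcc N) (hI : Normalised U N) : OneCoset U N := by
  classical
  intro s x y hx hy
  by_contra hxy
  set f : L2 Γ := U.symm (delta s) with hf
  -- the operators `z_n`
  have hz : ∀ n ∈ N, ∃ T : L2 Γ ≃ₗᵢ[ℂ] L2 Γ, InVN (tl T : L2 Γ →L[ℂ] L2 Γ) ∧
      SuppIn (tl T (delta 1)) N ∧ T f = rho n⁻¹ f := by
    intro n hn
    let T : L2 Γ ≃ₗᵢ[ℂ] L2 Γ :=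
      ((((U.trans (lam s⁻¹)).trans U.symm).trans (lam n)).trans ((U.trans (lam s)).trans U.symm))
    have hT : ∀ g, T g = U.symm (lam s (U (lam n (U.symm (lam s⁻¹ (U g)))))) := fun g => rfl
    have e1 : ∀ (t : Λ) (x : Γ) (g : L2 Γ), U.symm (lam t (U (rho x g))) =
        rho x (U.symm (lam t (U g))) := fun t x g => inVN_th hU.symm t x g
    refine ⟨T, ?_, ?_, ?_⟩
    · intro x g
      show T (rho x g) = rho x (T g)
      rw [hT, hT, e1, ← rho_lam, e1]
    · refine hI s (tl (lam n)) (inVN_lam n) ?_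
      intro z hz
      show lam n (delta 1) z = 0
      rw [lam_delta, mul_one, delta_apply, if_neg]
      rintro rfl
      exact hz hn
    · rw [hT, hf, U.apply_symm_apply, lam_delta, inv_mul_cancel, hU.symm_one, lam_delta, mul_one]
      have h1 : (delta n : L2 Γ) = rho n⁻¹ (delta 1) := by rw [rho_delta, inv_inv, one_mul]
      rw [h1, e1, hU.1, lam_delta, mul_one]
  -- the restrictions
  have hres : ∀ n ∈ N, ∃ T : L2 Γ ≃ₗᵢ[ℂ] L2 Γ, InVN (tl T : L2 Γ →L[ℂ] L2 Γ) ∧
      ∀ a : Γ, T (res (cs N a) f) = rho n⁻¹ (res (cs N a) f) := by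
    intro n hn
    obtain ⟨T, hT, hTs, hTf⟩ := hz n hn
    refine ⟨T, hT, fun a => ?_⟩
    have h1 : (tl T : L2 Γ →L[ℂ] L2 Γ) (res (cs N a) f) = res (cs N a) (tl T f) :=
      res_comm (cs_left hNn a) hT hTs f
    have h2 : T (res (cs N a) f) = res (cs N a) (T f) := h1
    rw [h2, hTf, res_rho]
    congr 2
    ext z
    show a⁻¹ * (z * n⁻¹⁻¹) ∈ N ↔ a⁻¹ * z ∈ N
    rw [inv_inv, ← mul_assoc, N.mul_mem_cancel_right hn]
  have hphi : ∀ a b z : Γ, z ≠ 1 → ⟪res (cs N b) f, rho z (res (cs N a) f)⟫_ℂ = 0 := by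
    intro a b z hz1
    have hc0 : Tendsto (fun z => ⟪res (cs N b) f, rho z (res (cs N a) f)⟫_ℂ) cofinite (𝓝 0) := by
      refine c0 (v := fun z => rho z) (fun c => ?_) _ _
      have h1 : (fun g => rho g (delta c) : Γ → L2 Γ) = fun g => (delta (c * g⁻¹) : L2 Γ) := by
        funext g
        rw [rho_delta]
      show Orthonormal ℂ fun g => (rho g (delta c) : L2 Γ)
      rw [h1]
      exact orthonormal_delta' fun g g' hgg => inv_injective (mul_left_cancel hgg)
    refine orbit_zero (S := (N : Set Γ)) (hN z hz1)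
      (F := fun z => ⟪res (cs N b) f, rho z (res (cs N a) f)⟫_ℂ) ?_ hc0
    intro n hn
    obtain ⟨T, hT, hTr⟩ := hres n hn
    show ⟪res (cs N b) f, rho (n * z * n⁻¹) (res (cs N a) f)⟫_ℂ = _
    rw [rho_mul, rho_mul, ← hTr a]
    have h1 : ⟪res (cs N b) f, rho n (rho z (T (res (cs N a) f)))⟫_ℂ =
        ⟪rho n⁻¹ (res (cs N b) f), rho n⁻¹ (rho n (rho z (T (res (cs N a) f))))⟫_ℂ :=
      (LinearIsometryEquiv.inner_map_map _ _ _).symm
    rw [h1, rho_inv_rho, ← hTr b]
    have h2 : rho z (T (res (cs N a) f)) = T (rho z (res (cs N a) f)) := (hT z _).symm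
    rw [h2, LinearIsometryEquiv.inner_map_map]
  refine no_two (u := res (cs N x) f) (v := res (cs N y) f) ?_ ?_
    (fun z hz1 => hphi x x z hz1) ?_
  · intro h0
    have h1 := congrArg (fun v : L2 Γ => v x) h0
    simp only at h1
    rw [res_in (by show x⁻¹ * x ∈ N; rw [inv_mul_cancel]; exact N.one_mem)] at h1
    exact hx h1
  · intro h0
    have h1 := congrArg (fun v : L2 Γ => v y) h0
    simp only at h1
    rw [res_in (by show y⁻¹ * y ∈ N; rw [inv_mul_cancel]; exact N.one_mem)] at h1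
    exact hy h1
  · intro z
    by_cases hz1 : z = 1
    · subst hz1
      rw [rho_one, lp.inner_eq_tsum]
      have h1 : ∀ t, ⟪res (cs N y) f t, res (cs N x) f t⟫_ℂ = 0 := by
        intro t
        by_cases ht : t ∈ cs N y
        · rw [res_out (C := cs N x), inner_zero_right]
          intro ht'
          refine hxy ?_
          have h2 : x⁻¹ * t ∈ N := ht'
          have h3 : y⁻¹ * t ∈ N := ht
          have h4 := N.mul_mem h2 (N.inv_mem h3)
          have h5 : x⁻¹ * t * (y⁻¹ * t)⁻¹ = x⁻¹ * y := by group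
          rwa [h5] at h4
        · rw [res_out ht, inner_zero_left]
      simp only [h1, tsum_zero]
    · exact hphi x y z hz1

/-! ### conclusions -/

variable {N : Subgroup Γ}

theorem mem_symm {s : Λ} {g : Γ} : U (delta g) s ≠ 0 ↔ U.symm (delta s) g ≠ 0 := by
  rw [← inner_delta, ← LinearIsometryEquiv.inner_map_map U.symm, U.symm_apply_apply,
    ← inner_conj_symm, inner_delta, map_ne_zero]

open Classical in
/-- the coset of the support of `U⁻¹ δ_s` -/
noncomputable def cmap (U : L2 Γ ≃ₗᵢ[ℂ] L2 Λ) (N : Subgroup Γ) (s : Λ) : Γ ⧸ N :=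
  ((exists_supp (U := U.symm) s).choose : Γ ⧸ N)

theorem cmap_eq (h : OneCoset U N) {s : Λ} {x : Γ} (hx : U.symm (delta s) x ≠ 0) :
    cmap U N s = (x : Γ ⧸ N) :=
  QuotientGroup.eq.2 (h s _ _ (exists_supp (U := U.symm) s).choose_spec hx)

theorem cmap_one (hU : IsStdIso U) (h : OneCoset U N) : cmap U N 1 = ((1 : Γ) : Γ ⧸ N) := by
  classical
  refine cmap_eq h ?_
  rw [hU.symm_one, delta_apply, if_pos rfl]
  exact one_ne_zero

theorem cmap_mul (hU : IsStdIso U) (hN : N.Normal) (h : OneCoset U N) (s t : Λ) :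
    cmap U N (s * t) = cmap U N s * cmap U N t := by
  classical
  obtain ⟨x, hx⟩ := exists_supp (U := U.symm) (s * t)
  rw [cmap_eq h hx]
  have h1 : U.symm (delta (s * t)) = th U.symm (tl (lam s)) (U.symm (delta t)) := by
    rw [th_lam_apply, lam_delta]
  rw [h1] at hx
  have h2 := apply_hasSum (th U.symm (tl (lam s))) (U.symm (delta t)) x
  have h3 : ∃ c, U.symm (delta t) c * th U.symm (tl (lam s)) (delta c) x ≠ 0 := by
    by_contra hcon
    push Not at hcon
    simp only [hcon] at h2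
    exact hx (h2.unique hasSum_zero)
  obtain ⟨c, hc⟩ := h3
  rw [(inVN_th hU.symm s).delta_apply', th_lam_delta hU.symm] at hc
  rw [cmap_eq h (right_ne_zero_of_mul hc), cmap_eq h (left_ne_zero_of_mul hc),
    ← QuotientGroup.mk_mul, inv_mul_cancel_right]

/-- the homomorphism `Λ → Γ / N` -/
noncomputable def chom (hU : IsStdIso U) [hN : N.Normal] (h : OneCoset U N) : Λ →* Γ ⧸ N where
  toFun := cmap U N
  map_one' := cmap_one hU h
  map_mul' := cmap_mul hU hN h

theorem chom_apply (hU : IsStdIso U) [hN : N.Normal] (h : OneCoset U N) {s : Λ} {x : Γ}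
    (hx : U.symm (delta s) x ≠ 0) : chom hU h s = (x : Γ ⧸ N) := cmap_eq h hx

theorem chom_surj (hU : IsStdIso U) [hN : N.Normal] (h : OneCoset U N) :
    Function.Surjective (chom hU h) := by
  intro q
  obtain ⟨g, rfl⟩ := QuotientGroup.mk_surjective q
  obtain ⟨s, hs⟩ := exists_supp (U := U) g
  exact ⟨s, chom_apply hU h (mem_symm.1 hs)⟩

/-- `U` maps the vectors supported on `N` onto those supported on the kernel -/
theorem supp_iff (hU : IsStdIso U) [hN : N.Normal] (h : OneCoset U N) (f : L2 Γ) :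
    SuppIn f N ↔ SuppIn (U f) (chom hU h).ker := by
  classical
  constructor
  · intro hf s hs
    have h1 : U f s = ⟪U.symm (delta s), f⟫_ℂ := by
      rw [← inner_delta, ← LinearIsometryEquiv.inner_map_map U.symm, U.symm_apply_apply]
    rw [h1, lp.inner_eq_tsum]
    have h2 : ∀ x, ⟪U.symm (delta s) x, f x⟫_ℂ = 0 := by
      intro x
      by_cases hx : x ∈ N
      · by_cases h3 : U.symm (delta s) x = 0
        · rw [h3, inner_zero_left]
        · refine absurd ?_ hs
          show s ∈ (chom hU h).ker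
          rw [MonoidHom.mem_ker, chom_apply hU h h3]
          exact (QuotientGroup.eq_one_iff x).2 hx
      · rw [hf x hx, inner_zero_right]
    simp only [h2, tsum_zero]
  · intro hf x hx
    have h1 : f x = ⟪U (delta x), U f⟫_ℂ := by
      rw [LinearIsometryEquiv.inner_map_map, inner_delta]
    rw [h1, lp.inner_eq_tsum]
    have h2 : ∀ s, ⟪U (delta x) s, U f s⟫_ℂ = 0 := by
      intro s
      by_cases hs : s ∈ (chom hU h).ker
      · by_cases h3 : U (delta x) s = 0
        · rw [h3, inner_zero_left]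
        · refine absurd ?_ hx
          have h4 := chom_apply hU h (mem_symm.1 h3)
          rw [MonoidHom.mem_ker.1 hs] at h4
          exact (QuotientGroup.eq_one_iff x).1 h4.symm
      · rw [hf s hs, inner_zero_right]
    simp only [h2, tsum_zero]

theorem oneCoset (hU : IsStdIso U) (hNn : N.Normal) (hN : RelIcc N) (h : Respects U N) :
    OneCoset U N := by
  rcases h with ⟨K, hK⟩ | h
  · exact oneCoset_of_sub hU hNn hN hK
  · exact oneCoset_of_normalised hU hNn hN h

/-- one normal subgroup -/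
theorem one_subgroup (hU : IsStdIso U) (hNn : N.Normal) (hN : RelIcc N) (h : Respects U N) :
    Corresponds U N := by
  have h1 := oneCoset hU hNn hN h
  refine ⟨(chom hU h1).ker, inferInstance, ?_, ?_⟩
  · intro T hT
    rw [hU.symm_one]
    exact supp_iff hU h1 _
  · exact ⟨(QuotientGroup.quotientKerEquivOfSurjective _ (chom_surj hU h1)).symm⟩

/-- a family of normal subgroups with trivial intersection -/
theorem family (hU : IsStdIso U) {ι : Type} (N : ι → Subgroup Γ) (hNn : ∀ i, (N i).Normal)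
    (hN : ∀ i, RelIcc (N i)) (h : ∀ i, Respects U (N i)) (ht : ∀ g, (∀ i, g ∈ N i) → g = 1) :
    IsGroupLike U := by
  have h1 : ∀ i, OneCoset U (N i) := fun i => oneCoset hU (hNn i) (hN i) (h i)
  refine exists_equiv hU fun g => gl_of_single fun s s' hs hs' => ?_
  have h2 : s⁻¹ * s' = 1 := by
    refine eq_one_of_supp hU fun x hx => ht x fun i => ?_
    haveI := hNn i
    have h3 := chom_apply hU (h1 i) hx
    rw [map_mul, map_inv, chom_apply hU (h1 i) (mem_symm.1 hs), chom_apply hU (h1 i) (mem_symm.1 hs'),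
      inv_mul_cancel] at h3
    exact (QuotientGroup.eq_one_iff x).1 h3.symm
  exact inv_mul_eq_one.1 h2

end Pool.Agent.K4H66.VN
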