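import Pool.Agent.K4H1.VN.Pr

/-!
# Isomorphisms of group von Neumann algebras and normal subgroups: the predicates
-/

set_option autoImplicit false

namespace Pool.Agent.K4H66.VN

open Pool.Agent.K4H1.VN

variable {Γ Λ : Type} [Group Γ] [Group Λ]

/-- every `g ≠ 1` has infinitely many conjugates `n g n⁻¹`, `n` in `N` -/
def RelIcc (N : Subgroup Γ) : Prop :=
  ∀ g : Γ, g ≠ 1 → {x : Γ | ∃ n ∈ N, x = n * g * n⁻¹}.Infinite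

/-- the operator `θ⁻¹(λ_s) = U⁻¹ λ_s U` -/
noncomputable def pull (U : L2 Γ ≃ₗᵢ[ℂ] L2 Λ) (s : Λ) (f : L2 Γ) : L2 Γ := U.symm (lam s (U f))

/-- `θ(L(N))` is normalised by `Λ`: for `T` in `L(N)` and `s` in `Λ` the operator
`θ⁻¹(λ_s θ(T) λ_s⁻¹) = θ⁻¹(λ_s) T θ⁻¹(λ_s⁻¹)` is in `L(N)` -/
def Normalised (U : L2 Γ ≃ₗᵢ[ℂ] L2 Λ) (N : Subgroup Γ) : Prop :=
  ∀ (s : Λ) (T : L2 Γ →L[ℂ] L2 Γ), InVN T → SuppIn (T (delta 1)) N →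
    SuppIn (pull U s (T (pull U s⁻¹ (delta 1)))) N

/-- `θ` respects `N`: `θ(L(N))` is the algebra `L(K)` of some subgroup `K` of `Λ`, or it is
normalised by `Λ` -/
def Respects (U : L2 Γ ≃ₗᵢ[ℂ] L2 Λ) (N : Subgroup Γ) : Prop :=
  (∃ K : Subgroup Λ, MapsSub U N K) ∨ Normalised U N

/-- `θ` is group-like: `θ(u_g) = χ(g) u_{π(g)}` for an isomorphism of groups `π` and a character
`χ` -/
def IsGroupLike (U : L2 Γ ≃ₗᵢ[ℂ] L2 Λ) : Prop :=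
  ∃ (π : Γ ≃* Λ) (χ : Γ →* Circle), ∀ g f, U (lam g f) = (χ g : ℂ) • lam (π g) (U f)

/-- `θ(L(N)) = L(K)` for a normal subgroup `K` of `Λ` such that `Γ / N` and `Λ / K` are isomorphic -/
def Corresponds (U : L2 Γ ≃ₗᵢ[ℂ] L2 Λ) (N : Subgroup Γ) [N.Normal] : Prop :=
  ∃ (K : Subgroup Λ) (_ : K.Normal), MapsSub U N K ∧ Nonempty (Γ ⧸ N ≃* Λ ⧸ K)

end Pool.Agent.K4H66.VN
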